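import Pool.Agent.H44.FM.GammaDefs
import Pool.Agent.H26.DT.Final

/-!
# The determinant relation for structures of gamma type
-/

set_option autoImplicit false

noncomputable section

namespace GD

open Complex Module

variable {V : Type*} [AddCommGroup V] [Module ℚ V]

/-- A system of conjugate gamma vectors in the complexification of `M`. -/
structure GV (cls : ℂ → V) (S : Str) (M : Submodule ℚ S.W) (d : ℕ) [NeZero d]
    (v : (ZMod d)ˣ → S.W) (ε : ZMod d → ℚ) (p : (ZMod d)ˣ → ℕ) (g : (ZMod d)ˣ → ℂ) : Prop where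
  rat : ∃ (κ : Type) (_ : Fintype κ) (c : κ → cyc d) (b : κ → S.W), (∀ k, b k ∈ M) ∧
    ∀ t, v t = ∑ k, ((sAut d t (c k) : cyc d) : ℂ) • b k
  hodge : ∀ t, v t ∈ S.hodge (p t)
  typ : ∀ t, tsum' d (fun x => x) ε t = p t
  g_ne : ∀ t, g t ≠ 0
  dR : ∀ t, g t • v t ∈ S.D
  g_cls : ∀ t, cls (g t) = tsum' d (gam cls) ε t

variable {cls : ℂ → V}

theorem gv_of (hΓ : GammaSpec V cls) {S : Str} {x : S.W} (hx : IsGammaVec S x) :
    ∃ (d : ℕ) (_ : NeZero d) (v : (ZMod d)ˣ → S.W) (ε : ZMod d → ℚ) (p : (ZMod d)ˣ → ℕ)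
      (g : (ZMod d)ˣ → ℂ), GV cls S S.B d v ε p g ∧ v 1 = x := by
  obtain ⟨d, hd, ε, m, c, b, hb, hxe, h⟩ := hx
  have h1 : ∀ t : (ZMod d)ˣ, ∃ p : ℕ, (d : ℚ) * p =
      ∑ a ∈ Finset.univ.erase (0 : ZMod d), ε a * (((t : ZMod d) * a).val : ℚ) ∧
      ∑ k, ((sAut d t (c k) : cyc d) : ℂ) • b k ∈ S.hodge p ∧
      (gammaProd d ε t : ℂ) • ∑ k, ((sAut d t (c k) : cyc d) : ℂ) • b k ∈ S.D := by
    intro t
    refine h t ((algebraMap (cyc d) ℂ).comp (sAut d t).toRingEquiv.toRingHom) ?_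
    intro z hz
    change ((sAut d t z : cyc d) : ℂ) = _
    rw [sAut_zeta d t z (by rw [hz]; exact (zeta_prim d).pow_eq_one), ← hz]
    rfl
  choose p hp1 hp2 hp3 using h1
  refine ⟨d, hd, fun t => ∑ k, ((sAut d t (c k) : cyc d) : ℂ) • b k, ε, p,
    fun t => (gammaProd d ε t : ℂ), ?_, ?_⟩
  · refine ⟨⟨Fin m, inferInstance, c, b, hb, fun t => rfl⟩, hp2, ?_, fun t => gammaProd_ne d ε t,
      hp3, fun t => cls_gammaProd hΓ d ε t⟩
    intro t
    have hdd : (d : ℚ) ≠ 0 := by exact_mod_cast NeZero.ne d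
    apply mul_left_cancel₀ hdd
    rw [hp1, sum_erase, tsum_id]
  · rw [hxe]
    refine Finset.sum_congr rfl fun k _ => ?_
    rw [sAut_one]

theorem sAut_level {d k : ℕ} [NeZero d] [NeZero k] [NeZero (d * k)] (t : (ZMod (d * k))ˣ)
    (z : cyc d) : ((sAut (d * k) t ⟨z, cyc_le d k z.2⟩ : cyc (d * k)) : ℂ) =
      ((sAut d (ZMod.unitsMap (Dvd.intro k rfl) t) z : cyc d) : ℂ) := by
  have h := phi_level (F := cyc d) (d := d) (k := k) rfl (algebraMap (cyc d) ℂ) (fun x => x.2)
    (fun x => cyc_le d k x.2) t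
  have h1 := congrArg (fun f => f z) h
  simp only [phi_apply] at h1
  have e1 : eRes (algebraMap (cyc d) ℂ) (fun x => cyc_le d k x.2) z = ⟨z, cyc_le d k z.2⟩ := by
    apply Subtype.ext
    rw [eRes_coe]
    rfl
  have e2 : eRes (algebraMap (cyc d) ℂ) (fun x => x.2) z = z := by
    apply Subtype.ext
    rw [eRes_coe]
    rfl
  rw [e1, e2] at h1
  exact h1

theorem GV.infl {S : Str} {M : Submodule ℚ S.W} {d k D : ℕ} [NeZero d] [NeZero k] [NeZero D]
    (hD : D = d * k) {v : (ZMod d)ˣ → S.W} {ε : ZMod d → ℚ} {p : (ZMod d)ˣ → ℕ}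
    {g : (ZMod d)ˣ → ℂ} (h : GV cls S M d v ε p g) :
    ∃ (v' : (ZMod D)ˣ → S.W) (ε' : ZMod D → ℚ) (p' : (ZMod D)ˣ → ℕ) (g' : (ZMod D)ˣ → ℂ),
      GV cls S M D v' ε' p' g' ∧ v' 1 = v 1 := by
  subst hD
  obtain ⟨⟨κ, hκ, c, b, hb, hv⟩, h2, h3, h4, h5, h6⟩ := h
  refine ⟨fun t => v (ZMod.unitsMap (Dvd.intro k rfl) t), GD.infl d k ε,
    fun t => p (ZMod.unitsMap (Dvd.intro k rfl) t),
    fun t => g (ZMod.unitsMap (Dvd.intro k rfl) t), ⟨?_, ?_, ?_, ?_, ?_, ?_⟩, ?_⟩
  · refine ⟨κ, hκ, fun i => ⟨c i, cyc_le d k (c i).2⟩, b, hb, fun t => ?_⟩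
    rw [hv]
    exact Finset.sum_congr rfl fun i _ => by rw [sAut_level]
  · exact fun t => h2 _
  · intro t
    rw [tsum_infl, h3]
  · exact fun t => h4 _
  · exact fun t => h5 _
  · intro t
    rw [tsum_infl, h6]
  · change v (ZMod.unitsMap _ 1) = v 1
    rw [map_one]

section image

variable {S : Str} {M : Submodule ℚ S.W} {K : Type} [Field K] [NumberField K]
  {ι : K →+* Module.End ℂ (S.cx M)}

/-- The image of a gamma vector in the eigenspaces of a substructure. -/
theorem GV.image (hM : IsSub S M) (hι : ∀ a, IsEnd S M (ι a)) {π : S.W →ₗ[ℂ] S.W}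
    (hπ : IsHom S S π) (hπ2 : ∀ w, π w ∈ S.cx M) {d : ℕ} [NeZero d] {e : K →+* ℂ}
    (he : ∀ x, e x ∈ cyc d) {v : (ZMod d)ˣ → S.W} {ε : ZMod d → ℚ} {p : (ZMod d)ˣ → ℕ}
    {g : (ZMod d)ˣ → ℂ} (h : GV cls S S.B d v ε p g) :
    GV cls S M d (fun t => (prj ι (phi e he t) ⟨π (v t), hπ2 _⟩ : S.W)) ε p g := by
  obtain ⟨⟨κ, hκ, c, b, hb, hv⟩, h2, h3, h4, h5, h6⟩ := h
  have hcoe : ∀ (τ : K →+* ℂ) (x : S.cx M),
      (prj ι τ x : S.W) = ∑ i, τ (bad K i) • (ι (bas K i) x : S.W) := by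
    intro τ x
    rw [prj_apply, AddSubmonoidClass.coe_finsetSum]
    rfl
  refine ⟨?_, ?_, h3, h4, ?_, h6⟩
  · refine ⟨Fin (finrank ℚ K) × κ, inferInstance,
      fun i => eRes e he (bad K i.1) * c i.2,
      fun i => (ι (bas K i.1) ⟨π (b i.2), hπ2 _⟩ : S.W), ?_, ?_⟩
    · intro i
      refine (hι _).betti _ ?_
      exact mem_of_cx hM.le (hπ2 _) (hπ.betti _ (hb _))
    · intro t
      have e1 : (⟨π (v t), hπ2 _⟩ : S.cx M) =
          ∑ k, ((sAut d t (c k) : cyc d) : ℂ) • (⟨π (b k), hπ2 _⟩ : S.cx M) := by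
        apply Subtype.ext
        rw [AddSubmonoidClass.coe_finsetSum]
        change π (v t) = ∑ k, ((sAut d t (c k) : cyc d) : ℂ) • π (b k)
        rw [hv, map_sum]
        exact Finset.sum_congr rfl fun k _ => map_smul _ _ _
      rw [hcoe, Fintype.sum_prod_type]
      refine Finset.sum_congr rfl fun i _ => ?_
      rw [e1, map_sum, AddSubmonoidClass.coe_finsetSum, Finset.smul_sum]
      refine Finset.sum_congr rfl fun k _ => ?_
      rw [map_smul, map_mul, phi_apply]
      change _ • (((sAut d t (c k) : cyc d) : ℂ) • (ι (bas K i) ⟨π (b k), hπ2 _⟩ : S.W)) =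
        (((sAut d t (eRes e he (bad K i)) : cyc d) : ℂ) * ((sAut d t (c k) : cyc d) : ℂ)) • _
      rw [smul_smul]
  · intro t
    change (prj ι (phi e he t) ⟨π (v t), hπ2 _⟩ : S.W) ∈ _
    rw [hcoe]
    refine Submodule.sum_mem _ fun i _ => Submodule.smul_mem _ _ ?_
    exact (hι _).hodge _ _ (hπ.hodge _ _ (h2 t))
  · intro t
    change g t • (prj ι (phi e he t) ⟨π (v t), hπ2 _⟩ : S.W) ∈ _
    have e1 : g t • (prj ι (phi e he t) ⟨π (v t), hπ2 _⟩ : S.W) =
        (prj ι (phi e he t) ⟨π (g t • v t), hπ2 _⟩ : S.W) := by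
      have e2 : (⟨π (g t • v t), hπ2 _⟩ : S.cx M) = g t • ⟨π (v t), hπ2 _⟩ :=
        Subtype.ext (map_smul _ _ _)
      rw [e2, map_smul]
      rfl
    rw [e1, hcoe]
    refine Submodule.sum_mem _ fun i _ => ?_
    exact S.D_smul (emb_alg K _ _) ((hι _).deRham _ (hπ.deRham _ (h5 t)))

end image

/-- Conjugates of linearly independent vectors are linearly independent. -/
theorem lin_conj {S : Str} {d : ℕ} [NeZero d] {n : ℕ} (w : Fin n → (ZMod d)ˣ → S.W)
    (hw : ∀ j, ∃ (κ : Type) (_ : Fintype κ) (c : κ → cyc d) (b : κ → S.W), (∀ k, b k ∈ S.B) ∧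
      ∀ t, w j t = ∑ k, ((sAut d t (c k) : cyc d) : ℂ) • b k)
    (h1 : LinearIndependent ℂ fun j => w j 1) (t : (ZMod d)ˣ) :
    LinearIndependent ℂ fun j => w j t := by
  classical
  have hfin := S.finite_B
  let β := Module.finBasis ℚ S.B
  let r := finrank ℚ S.B
  have hβ : LinearIndependent ℂ fun i => (β i : S.W) := by
    refine form_lin S.B S.B_form _ (fun i => (β i).2) ?_
    exact β.linearIndependent.map' S.B.subtype (Submodule.ker_subtype _)
  have hexp : ∀ x ∈ S.B, ∃ q : Fin r → ℚ, x = ∑ i, (q i : ℂ) • (β i : S.W) := by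
    intro x hx
    refine ⟨fun i => β.repr ⟨x, hx⟩ i, ?_⟩
    have h2 := congrArg (fun y : S.B => (y : S.W)) (β.sum_repr ⟨x, hx⟩)
    simp only [AddSubmonoidClass.coe_finsetSum] at h2
    refine h2.symm.trans (Finset.sum_congr rfl fun i _ => ?_)
    rw [rat_smul']
    rfl
  -- the matrix of coordinates
  have hA : ∀ j, ∃ a : Fin r → cyc d, ∀ t, w j t = ∑ i, ((sAut d t (a i) : cyc d) : ℂ) •
      (β i : S.W) := by
    intro j
    obtain ⟨κ, _, c, b, hb, hwj⟩ := hw j
    choose q hq using fun k => hexp (b k) (hb k)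
    refine ⟨fun i => ∑ k, c k * algebraMap ℚ (cyc d) (q k i), fun t => ?_⟩
    rw [hwj]
    have e1 : ∀ i, ((sAut d t (∑ k, c k * algebraMap ℚ (cyc d) (q k i)) : cyc d) : ℂ) =
        ∑ k, ((sAut d t (c k) : cyc d) : ℂ) * (q k i : ℂ) := by
      intro i
      rw [map_sum, AddSubmonoidClass.coe_finsetSum]
      refine Finset.sum_congr rfl fun k _ => ?_
      rw [map_mul, AlgEquiv.commutes]
      rfl
    simp only [e1, Finset.sum_smul]
    rw [Finset.sum_comm]
    refine Finset.sum_congr rfl fun k _ => ?_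
    conv_lhs => rw [hq k, Finset.smul_sum]
    exact Finset.sum_congr rfl fun i _ => by rw [smul_smul]
  choose a ha using hA
  let A : Matrix (Fin n) (Fin r) (cyc d) := Matrix.of a
  -- the rows are independent
  have hrow : LinearIndependent (cyc d) A.row := by
    rw [Fintype.linearIndependent_iff]
    intro z hz
    have h2 := Fintype.linearIndependent_iff.1 h1 (fun j => (z j : ℂ)) (by
      simp only [ha, sAut_one, Finset.smul_sum, smul_smul]
      rw [Finset.sum_comm]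
      refine Finset.sum_eq_zero fun i _ => ?_
      rw [← Finset.sum_smul]
      have h3 := congrArg (fun x : cyc d => (x : ℂ)) (congrFun hz i)
      simp only [Finset.sum_apply, Pi.smul_apply, smul_eq_mul, AddSubmonoidClass.coe_finsetSum]
        at h3
      have h4 : ∑ j, (z j : ℂ) * (a j i : ℂ) = 0 := h3
      rw [h4, zero_smul])
    intro j
    exact Subtype.ext (h2 j)
  have hsurj : Function.Surjective A.mulVec := by
    have h2 := hrow.rank_matrix
    have h3 : LinearMap.range A.mulVecLin = ⊤ := by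
      apply Submodule.eq_top_of_finrank_eq
      rw [Module.finrank_fintype_fun_eq_card]
      exact h2
    exact LinearMap.range_eq_top.1 h3
  obtain ⟨B, hB⟩ := Matrix.mulVec_surjective_iff_exists_right_inverse.1 hsurj
  let σ : cyc d →+* ℂ := (algebraMap (cyc d) ℂ).comp (sAut d t).toRingEquiv.toRingHom
  have hB' : A.map σ * B.map σ = 1 := by
    rw [← Matrix.map_mul, hB]
    ext i j
    rw [Matrix.map_apply, Matrix.one_apply, Matrix.one_apply]
    split_ifs
    · exact map_one σ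
    · exact map_zero σ
  rw [Fintype.linearIndependent_iff]
  intro z hz
  have h2 : Matrix.vecMul z (A.map σ) = 0 := by
    have h3 : ∑ i, (∑ j, z j * σ (a j i)) • (β i : S.W) = 0 := by
      rw [← hz]
      simp only [ha, Finset.smul_sum, smul_smul, Finset.sum_smul]
      rw [Finset.sum_comm]
      rfl
    funext i
    exact Fintype.linearIndependent_iff.1 hβ _ h3 i
  have h4 : z = 0 := by
    have h5 : Matrix.vecMul z (A.map σ * B.map σ) = 0 := by
      rw [← Matrix.vecMul_vecMul, h2, Matrix.zero_vecMul]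
    rwa [hB', Matrix.vecMul_one] at h5
  exact fun j => congrFun h4 j

/-- The determinant relation for substructures of structures of gamma type. -/
theorem detRelation_gamma {S : Str} (P : Pol S) (hG : GammaType S) {M : Submodule ℚ S.W}
    (hM : IsSub S M) {K : Type} [Field K] [NumberField K] (ι : K →+* Module.End ℂ (S.cx M))
    (hι : ∀ a, IsEnd S M (ι a)) {e : K →+* ℂ} (hex : ∃ d, LiesIn e d) : DetRelation ι e := by
  classical
  have hΓ := gammaSpec
  obtain ⟨π, hπ, hπ1, hπ2⟩ := exists_proj P hM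
  have hcond := liesIn_conductor hex
  intro d _ hd
  rw [← hd] at hcond
  -- vectors whose images form a basis of the eigenspace
  let L : S.W →ₗ[ℂ] S.W := (S.cx M).subtype ∘ₗ (prj ι e) ∘ₗ (π.codRestrict (S.cx M) hπ2)
  have hL : ∀ x, L x = (prj ι e ⟨π x, hπ2 _⟩ : S.W) := fun _ => rfl
  let s : Set S.W := L '' {x | IsGammaVec S x}
  have hs : Submodule.span ℂ s = eig ι e := by
    have h1 : Submodule.span ℂ s = LinearMap.range L := by
      rw [← Submodule.map_span]
      have : Submodule.span ℂ {x | IsGammaVec S x} = ⊤ := hG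
      rw [this, Submodule.map_top]
    rw [h1]
    apply le_antisymm
    · rintro _ ⟨x, rfl⟩
      rw [hL]
      exact prj_mem_eig ι e _
    · intro x hx
      refine ⟨x, ?_⟩
      have hxM : x ∈ S.cx M := eig_le ι e hx
      have h2 : (⟨π x, hπ2 _⟩ : S.cx M) = ⟨x, hxM⟩ := Subtype.ext (hπ1 x hxM)
      rw [hL, h2, prj_of_eig ι e e hx, if_pos rfl]
  obtain ⟨n, f, hn, hf1, hf3⟩ : ∃ (n : ℕ) (f : Fin n → S.W),
      finrank ℂ (Submodule.span ℂ s) = n ∧ (∀ j, f j ∈ s) ∧ LinearIndependent ℂ f := by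
    obtain ⟨f, hf1, -, hf3⟩ := Submodule.exists_fun_fin_finrank_span_eq ℂ s
    exact ⟨_, f, rfl, hf1, hf3⟩
  have hn' : finrank ℂ (eig ι e) = n := by rw [← hn, hs]
  choose x hx hLx using hf1
  -- gamma vectors at their levels
  choose D hD v ε p g hgv hv1 using fun j => gv_of hΓ (hx j)
  -- the common level
  let k : ℕ := ∏ j, D j
  have hk : k ≠ 0 := Finset.prod_ne_zero_iff.2 fun j _ => (hD j).ne
  have : NeZero k := ⟨hk⟩
  have : NeZero (d * k) := ⟨mul_ne_zero (NeZero.ne d) hk⟩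
  have hlev : ∀ j, ∃ (v' : (ZMod (d * k))ˣ → S.W) (ε' : ZMod (d * k) → ℚ)
      (p' : (ZMod (d * k))ˣ → ℕ) (g' : (ZMod (d * k))ˣ → ℂ),
      GV Pool.Agent.H11.GD.cls S S.B (d * k) v' ε' p' g' ∧ v' 1 = x j := by
    intro j
    obtain ⟨l, hl⟩ : D j ∣ d * k := Dvd.dvd.mul_left (Finset.dvd_prod_of_mem D (Finset.mem_univ j)) d
    have hl0 : NeZero l := ⟨fun h => by
      rw [h, mul_zero] at hl
      exact mul_ne_zero (NeZero.ne d) hk hl⟩
    have := hD j
    obtain ⟨v', ε', p', g', h1, h2⟩ := (hgv j).infl hl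
    exact ⟨v', ε', p', g', h1, h2.trans (hv1 j)⟩
  choose v' ε' p' g' hgv' hv1' using hlev
  have he : ∀ x, e x ∈ cyc d := hcond.2
  have he' : ∀ x, e x ∈ cyc (d * k) := fun x => cyc_le d k (he x)
  let w : Fin n → (ZMod (d * k))ˣ → S.W := fun j t =>
    (prj ι (phi e he' t) ⟨π (v' j t), hπ2 _⟩ : S.W)
  have hw : ∀ j, GV Pool.Agent.H11.GD.cls S M (d * k) (w j) (ε' j) (p' j) (g' j) := fun j =>
    GV.image hM hι hπ hπ2 he' (hgv' j)
  have hw1 : ∀ j, w j 1 = f j := by
    intro j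
    rw [← hLx j, hL]
    change (prj ι (phi e he' 1) ⟨π (v' j 1), hπ2 _⟩ : S.W) = _
    rw [phi_one]
    congr 2
    exact Subtype.ext (congrArg π (hv1' j))
  have hlin : ∀ t, LinearIndependent ℂ fun j => w j t := by
    refine lin_conj w (fun j => ?_) ?_
    · obtain ⟨κ, hκ, c, b, hb, hwj⟩ := (hw j).rat
      exact ⟨κ, hκ, c, b, fun i => hM.le (hb i), hwj⟩
    · have h1 : (fun j => w j 1) = f := funext hw1
      rw [h1]
      exact hf3
  have hmem : ∀ j t, w j t ∈ eig ι (phi e he' t) := fun j t => prj_mem_eig ι _ _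
  have hspan : ∀ t, Submodule.span ℂ (Set.range fun j => w j t) = eig ι (phi e he' t) := by
    intro t
    apply Submodule.eq_of_le_of_finrank_eq
    · rw [Submodule.span_le]
      rintro _ ⟨j, rfl⟩
      exact hmem j t
    · rw [finrank_span_eq_card (hlin t), Fintype.card_fin, ← hn']
      exact finrank_eig ι hM hι _ _
  have hper : ∀ t, IsDetPeriod ι (phi e he' t) (∏ j, g' j t) := by
    intro t
    have hg : ∀ j, g' j t ≠ 0 := fun j => (hw j).g_ne t
    refine ⟨n, fun j => w j t, fun j => g' j t • w j t, Matrix.diagonal fun j => g' j t, hlin t,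
      hspan t, ?_, ?_, ?_, fun j => (hw j).dR t, ?_, (Matrix.det_diagonal).symm⟩
    · exact (hlin t).units_smul fun j => Units.mk0 (g' j t) (hg j)
    · rw [← hspan t]
      apply le_antisymm
      · rw [Submodule.span_le]
        rintro _ ⟨j, rfl⟩
        exact Submodule.smul_mem _ _ (Submodule.subset_span ⟨j, rfl⟩)
      · rw [Submodule.span_le]
        rintro _ ⟨j, rfl⟩
        have h1 : w j t = (g' j t)⁻¹ • (g' j t • w j t) := by
          rw [smul_smul, inv_mul_cancel₀ (hg j), one_smul]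
        change w j t ∈ _
        rw [h1]
        exact Submodule.smul_mem _ _ (Submodule.subset_span ⟨j, rfl⟩)
    · intro j
      obtain ⟨κ, hκ, c, b, hb, hwj⟩ := (hw j).rat
      change w j t ∈ _
      rw [hwj]
      refine Submodule.sum_mem _ fun i _ => ?_
      have h1 : IsAlgebraic ℚ ((sAut (d * k) t (c i) : cyc (d * k)) : ℂ) := by
        have h2 : IsAlgebraic ℚ (sAut (d * k) t (c i)) := Algebra.IsAlgebraic.isAlgebraic _
        exact h2.algebraMap
      have h3 := Submodule.smul_mem (Submodule.span Qbar (M : Set S.W))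
        (⟨_, mem_algebraicClosure_iff.2 h1⟩ : Qbar) (Submodule.subset_span (hb i))
      exact h3
    · intro j
      rw [Finset.sum_eq_single j]
      · rw [Matrix.diagonal_apply_eq]
      · intro i _ hi
        rw [Matrix.diagonal_apply_ne _ (Ne.symm hi), zero_smul]
      · intro h
        exact absurd (Finset.mem_univ j) h
  -- the relation at the common level
  choose c hc using fun τ : K →+* ℂ => exists_detPeriod ι hM hι τ
  have hrel : RelEx Pool.Agent.H11.GD.cls (d * k) e he' c (detType ι) := by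
    refine ⟨fun a => ∑ j, ε' j a, ?_, ?_⟩
    · intro t
      rw [tsum_sum]
      simp only [(hw _).typ]
      rw [← DT.sum_type ι P hM hι (phi e he' t) (hlin t) (hspan t) (fun j => (hw j).hodge t)]
      push_cast
      rfl
    · intro t
      rw [tsum_sum, cls_of_sim hΓ (detPeriod_sim hM.le ι (hc _) (hper t)),
        cls_prod hΓ _ _ fun j _ => (hw j).g_ne t]
      exact Finset.sum_congr rfl fun j _ => (hw j).g_cls t
  have hall : RelAll Pool.Agent.H11.GD.cls d e he c (detType ι) := (hrel.all hΓ).defl rfl he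
  intro ε₀ hε₀ l τ hτ z hz
  rw [isPhi_iff e he] at hτ
  subst hτ
  have hdd : (d : ℚ) ≠ 0 := by exact_mod_cast NeZero.ne d
  have h2 := hall ε₀ (by
    intro l'
    have h3 := hε₀ l' (phi e he l') ((isPhi_iff e he l' _).2 rfl)
    rw [sum_erase, ← tsum_id] at h3
    exact (mul_left_cancel₀ hdd h3).symm) l
  refine (detPeriod_sim hM.le ι hz (hc _)).trans
    (sim_of_cls hΓ (detPeriod_trace ι hM.le (hc _)).1 (gammaProd_ne d ε₀ l) ?_)
  rw [h2, cls_gammaProd hΓ]

/-- The conjecture holds for everything generated by polarised structures of gamma type. -/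
theorem triples_gamma (C : Str → Prop) (hP : ∀ S, C S → Nonempty (Pol S))
    (hG : ∀ S, C S → GammaType S) {F : Type} [Field F] [NumberField F] (e : F →+* ℂ)
    (hex : ∃ d, LiesIn e d) : DetFor C e := by
  intro K _ _ i _ _ _ S hS M hM ι hι
  obtain ⟨P⟩ := hP S hS
  obtain ⟨d, hd, he⟩ := hex
  exact detRelation_gamma P (hG S hS) hM.sub ι hι.isEnd ⟨d, hd, fun x => he (i x)⟩

end GD
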