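import Pool.Agent.H26.DT.Defs

/-!
# Structures of gamma type
-/

set_option autoImplicit false

noncomputable section

namespace GD

open Complex

/-- `x` is a gamma vector of the structure `S`: a combination of rational vectors with coefficients
in `ℚ(μ_d)`, all of whose conjugates are of pure Hodge type and become de Rham vectors when they are
multiplied by the gamma products with exponents `ε`, where `ε` gives the Hodge types. -/
def IsGammaVec (S : Str) (x : S.W) : Prop :=
  ∃ (d : ℕ) (_ : NeZero d) (ε : ZMod d → ℚ) (m : ℕ) (c : Fin m → cyc d) (b : Fin m → S.W),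
    (∀ k, b k ∈ S.B) ∧ x = ∑ k, (c k : ℂ) • b k ∧
    ∀ (t : (ZMod d)ˣ) (s : cyc d →+* ℂ),
      (∀ z : cyc d, (z : ℂ) = zeta d → s z = zeta d ^ (t : ZMod d).val) →
      ∃ p : ℕ, (d : ℚ) * p =
          ∑ a ∈ Finset.univ.erase (0 : ZMod d), ε a * (((t : ZMod d) * a).val : ℚ) ∧
        ∑ k, s (c k) • b k ∈ S.hodge p ∧ (gammaProd d ε t : ℂ) • ∑ k, s (c k) • b k ∈ S.D

/-- The structure `S` is of gamma type: it is spanned by gamma vectors, for example
`H^n(X, ℂ)` for a Fermat hypersurface `X` of dimension `n` and any degree. -/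
def GammaType (S : Str) : Prop := Submodule.span ℂ {x | IsGammaVec S x} = ⊤

end GD
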