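import Pool.Agent.H26.DT.Conv
import Pool.Agent.H44.GD.Sub2

/-!
# The relation for the determinant of a multiple of a substructure
-/

noncomputable section

namespace GD

open Complex

section mult

variable {S : Str} {M M' : Submodule ℚ S.W} {K : Type} [Field K]
  {ι : K →+* Module.End ℂ (S.cx M)} {ι' : K →+* Module.End ℂ (S.cx M')} {s : ℕ}
  {u : Fin s → S.W →ₗ[ℂ] S.W}

private theorem all_zero (hinj : ∀ j, ∀ x ∈ S.cx M, u j x = 0 → x = 0)
    (hind : iSupIndep fun j => (S.cx M).map (u j)) (x : Fin s → S.W) (hx : ∀ j, x j ∈ S.cx M)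
    (h0 : ∑ j, u j (x j) = 0) : ∀ j, x j = 0 := by
  intro j
  have h1 := (iSupIndep_iff_finsetSum_eq_zero_imp_eq_zero _).1 hind Finset.univ
    (fun j => u j (x j)) (fun j _ => ⟨x j, hx j, rfl⟩) h0 j (Finset.mem_univ j)
  exact hinj j _ (hx j) h1

private theorem exists_comp (hsup : ⨆ j, (S.cx M).map (u j) = S.cx M') {y : S.W}
    (hy : y ∈ S.cx M') : ∃ x : Fin s → S.W, (∀ j, x j ∈ S.cx M) ∧ y = ∑ j, u j (x j) := by
  rw [← hsup] at hy
  obtain ⟨f, hf, hx⟩ := (Submodule.mem_iSup_iff_exists_finsupp _ _).1 hy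
  have h1 : ∀ j, ∃ x ∈ S.cx M, u j x = f j := fun j => hf j
  choose x hx1 hx2 using h1
  refine ⟨x, hx1, ?_⟩
  rw [← hx, Finsupp.sum_fintype _ _ fun _ => rfl]
  exact Finset.sum_congr rfl fun j _ => (hx2 j).symm

private theorem map_mem (hmem : ∀ j, ∀ x ∈ S.cx M, u j x ∈ S.cx M')
    (heq : ∀ j a (x : S.cx M) (y : S.cx M'), u j x = y → u j (ι a x) = ι' a y)
    {τ : K →+* ℂ} {x : S.W} (hx : x ∈ eig ι τ) (j : Fin s) : u j x ∈ eig ι' τ := by
  obtain ⟨h, hx⟩ := DT.mem_eig.1 hx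
  refine DT.mem_eig.2 ⟨hmem j x h, fun a => ?_⟩
  apply Subtype.ext
  have h1 := heq j a ⟨x, h⟩ ⟨u j x, hmem j x h⟩ rfl
  rw [← h1, hx a]
  exact map_smul (u j) (τ a) x

private theorem eig_comp (hinj : ∀ j, ∀ x ∈ S.cx M, u j x = 0 → x = 0)
    (hmem : ∀ j, ∀ x ∈ S.cx M, u j x ∈ S.cx M')
    (heq : ∀ j a (x : S.cx M) (y : S.cx M'), u j x = y → u j (ι a x) = ι' a y)
    (hind : iSupIndep fun j => (S.cx M).map (u j)) (hsup : ⨆ j, (S.cx M).map (u j) = S.cx M')
    {τ : K →+* ℂ} {y : S.W} (hy : y ∈ eig ι' τ) :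
    ∃ x : Fin s → S.W, (∀ j, x j ∈ eig ι τ) ∧ y = ∑ j, u j (x j) := by
  obtain ⟨h, hy⟩ := DT.mem_eig.1 hy
  obtain ⟨x, hx, rfl⟩ := exists_comp hsup h
  refine ⟨x, fun j => DT.mem_eig.2 ⟨hx j, fun a => ?_⟩, rfl⟩
  have h1 : (ι' a ⟨∑ j, u j (x j), h⟩ : S.W) = ∑ j, u j (ι a ⟨x j, hx j⟩ : S.W) := by
    have h2 : (⟨∑ j, u j (x j), h⟩ : S.cx M') =
        ∑ j, (⟨u j (x j), hmem j _ (hx j)⟩ : S.cx M') := by
      apply Subtype.ext
      rw [Submodule.coe_sum]
    rw [h2, map_sum, Submodule.coe_sum]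
    exact Finset.sum_congr rfl fun j _ => (heq j a ⟨x j, hx j⟩ _ rfl).symm
  have h2 : (ι' a ⟨∑ j, u j (x j), h⟩ : S.W) = τ a • ∑ j, u j (x j) :=
    congrArg (fun z : S.cx M' => (z : S.W)) (hy a)
  have h3 : ∑ j, u j ((ι a ⟨x j, hx j⟩ : S.W) - τ a • x j) = 0 := by
    simp only [map_sub, map_smul, Finset.sum_sub_distrib]
    rw [← h1, h2, Finset.smul_sum, sub_self]
  have h4 := all_zero hinj hind _
    (fun j => sub_mem (ι a ⟨x j, hx j⟩).2 ((S.cx M).smul_mem (τ a) (hx j))) h3 j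
  exact Subtype.ext (sub_eq_zero.1 h4)

private theorem hodge_eig_comp (hM : IsSub S M) (hu : ∀ j, IsHom S S (u j))
    (hinj : ∀ j, ∀ x ∈ S.cx M, u j x = 0 → x = 0)
    (hmem : ∀ j, ∀ x ∈ S.cx M, u j x ∈ S.cx M')
    (heq : ∀ j a (x : S.cx M) (y : S.cx M'), u j x = y → u j (ι a x) = ι' a y)
    (hind : iSupIndep fun j => (S.cx M).map (u j)) (hsup : ⨆ j, (S.cx M).map (u j) = S.cx M')
    (τ : K →+* ℂ) (p : ℕ) (y : S.W) :
    y ∈ (eig ι' τ ⊓ S.hodge p : Submodule ℂ S.W) ↔
      ∃ x : Fin s → S.W, (∀ j, x j ∈ (eig ι τ ⊓ S.hodge p : Submodule ℂ S.W)) ∧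
        y = ∑ j, u j (x j) := by
  constructor
  · rintro ⟨hy, hyp⟩
    obtain ⟨x, hx, rfl⟩ := eig_comp hinj hmem heq hind hsup hy
    have hxM : ∀ j, x j ∈ S.cx M := fun j => (DT.mem_eig.1 (hx j)).1
    have hch : ∀ j, ∃ w : ℕ → S.W, (∀ q, w q ∈ S.cx M) ∧ (∀ q, w q ∈ S.hodge q) ∧
        x j = ∑ q ∈ Finset.range (S.wt + 1), w q := fun j => hodge_comp hM.hodge (hxM j)
    choose w hw1 hw2 hw3 using hch
    let W : ℕ → S.W := fun q => (∑ j, u j (w j q)) - if q = p then ∑ j, u j (x j) else 0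
    have hWq : ∀ q, W q ∈ S.hodge q := by
      intro q
      refine sub_mem (Submodule.sum_mem _ fun j _ => (hu j).hodge q _ (hw2 j q)) ?_
      split_ifs with hq
      · rw [hq]
        exact hyp
      · exact zero_mem _
    have hsum : ∑ j, u j (x j) = ∑ q ∈ Finset.range (S.wt + 1), ∑ j, u j (w j q) := by
      rw [Finset.sum_comm]
      refine Finset.sum_congr rfl fun j _ => ?_
      rw [← map_sum, ← hw3]
    have hW0 : ∀ q ∈ insert p (Finset.range (S.wt + 1)), W q = 0 := by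
      have hind' := S.hodge_internal.submodule_iSupIndep
      refine (iSupIndep_iff_finsetSum_eq_zero_imp_eq_zero _).1 hind' _ _ (fun q _ => hWq q) ?_
      change ∑ q ∈ insert p (Finset.range (S.wt + 1)),
        ((∑ j, u j (w j q)) - if q = p then ∑ j, u j (x j) else 0) = 0
      rw [Finset.sum_sub_distrib, Finset.sum_ite_eq' _ p, if_pos (Finset.mem_insert_self _ _),
        hsum, sub_eq_zero]
      by_cases hp : p ∈ Finset.range (S.wt + 1)
      · rw [Finset.insert_eq_of_mem hp]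
      · rw [Finset.sum_insert hp, add_eq_right]
        refine Finset.sum_eq_zero fun j _ => ?_
        have h5 : w j p ∈ S.hodge p := hw2 j p
        rw [S.hodge_large p (by
          rw [Finset.mem_range] at hp
          omega), Submodule.mem_bot] at h5
        rw [h5, map_zero]
    refine ⟨x, fun j => ⟨hx j, ?_⟩, rfl⟩
    change x j ∈ S.hodge p
    rw [hw3 j]
    refine Submodule.sum_mem _ fun q hq => ?_
    by_cases hqp : q = p
    · rw [← hqp]
      exact hw2 j q
    · have h6 := hW0 q (Finset.mem_insert_of_mem hq)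
      have h7 : ∑ j, u j (w j q) = 0 := by
        have h8 : W q = ∑ j, u j (w j q) := by
          change (∑ j, u j (w j q)) - (if q = p then ∑ j, u j (x j) else 0) = _
          rw [if_neg hqp, sub_zero]
        rw [← h8, h6]
      rw [all_zero hinj hind (fun j => w j q) (fun j => hw1 j q) h7 j]
      exact zero_mem _
  · rintro ⟨x, hx, rfl⟩
    exact ⟨Submodule.sum_mem _ fun j _ => map_mem hmem heq (hx j).1 j,
      Submodule.sum_mem _ fun j _ => (hu j).hodge p _ (hx j).2⟩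

private theorem finrank_mult (hinj : ∀ j, ∀ x ∈ S.cx M, u j x = 0 → x = 0)
    (hind : iSupIndep fun j => (S.cx M).map (u j)) {U V : Submodule ℂ S.W} (hU : U ≤ S.cx M)
    (hV : ∀ y, y ∈ V ↔ ∃ x : Fin s → S.W, (∀ j, x j ∈ U) ∧ y = ∑ j, u j (x j)) :
    Module.finrank ℂ V = s * Module.finrank ℂ U := by
  let Φ : (Fin s → U) →ₗ[ℂ] S.W := ∑ j, (u j).comp (U.subtype.comp (LinearMap.proj j))
  have hΦ : ∀ x, Φ x = ∑ j, u j (x j : S.W) := by
    intro x
    simp only [Φ, LinearMap.sum_apply, LinearMap.comp_apply, LinearMap.proj_apply,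
      Submodule.subtype_apply]
  have hΦi : Function.Injective Φ := by
    rw [← LinearMap.ker_eq_bot, LinearMap.ker_eq_bot']
    intro x hx
    rw [hΦ] at hx
    have h1 := all_zero hinj hind (fun j => (x j : S.W)) (fun j => hU (x j).2) hx
    funext j
    exact Subtype.ext (h1 j)
  have hr : LinearMap.range Φ = V := by
    ext y
    rw [hV]
    constructor
    · rintro ⟨x, rfl⟩
      exact ⟨fun j => x j, fun j => (x j).2, hΦ x⟩
    · rintro ⟨x, hx, rfl⟩
      exact ⟨fun j => ⟨x j, hx j⟩, hΦ _⟩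
  rw [← hr, LinearMap.finrank_range_of_inj hΦi, Module.finrank_pi_fintype, Finset.sum_const,
    Finset.card_univ, Fintype.card_fin, smul_eq_mul]

private theorem detType_mult (hM : IsSub S M) (hu : ∀ j, IsHom S S (u j))
    (hinj : ∀ j, ∀ x ∈ S.cx M, u j x = 0 → x = 0)
    (hmem : ∀ j, ∀ x ∈ S.cx M, u j x ∈ S.cx M')
    (heq : ∀ j a (x : S.cx M) (y : S.cx M'), u j x = y → u j (ι a x) = ι' a y)
    (hind : iSupIndep fun j => (S.cx M).map (u j)) (hsup : ⨆ j, (S.cx M).map (u j) = S.cx M')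
    (τ : K →+* ℂ) : detType ι' τ = s * detType ι τ := by
  rw [detType, detType, Finset.mul_sum]
  refine Finset.sum_congr rfl fun p _ => ?_
  rw [finrank_mult hinj hind (U := eig ι τ ⊓ S.hodge p)
    (fun x hx => (DT.mem_eig.1 hx.1).1)
    (hodge_eig_comp hM hu hinj hmem heq hind hsup τ p)]
  ring

private theorem basis_mult (hinj : ∀ j, ∀ x ∈ S.cx M, u j x = 0 → x = 0)
    (hmem : ∀ j, ∀ x ∈ S.cx M, u j x ∈ S.cx M')
    (heq : ∀ j a (x : S.cx M) (y : S.cx M'), u j x = y → u j (ι a x) = ι' a y)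
    (hind : iSupIndep fun j => (S.cx M).map (u j)) (hsup : ⨆ j, (S.cx M).map (u j) = S.cx M')
    {τ : K →+* ℂ} {n : ℕ} {w : Fin n → S.W} (hw : LinearIndependent ℂ w)
    (hwL : Submodule.span ℂ (Set.range w) = eig ι τ) :
    LinearIndependent ℂ (fun k : Fin n × Fin s => u k.2 (w k.1)) ∧
      Submodule.span ℂ (Set.range fun k : Fin n × Fin s => u k.2 (w k.1)) = eig ι' τ := by
  have hwe : ∀ i, w i ∈ eig ι τ := fun i => by
    rw [← hwL]
    exact Submodule.subset_span (Set.mem_range_self i)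
  have hwM : ∀ i, w i ∈ S.cx M := fun i => (DT.mem_eig.1 (hwe i)).1
  constructor
  · rw [Fintype.linearIndependent_iff]
    rintro g hg ⟨i, j⟩
    have h1 : ∑ j, u j (∑ i, g (i, j) • w i) = 0 := by
      rw [← hg, Fintype.sum_prod_type_right]
      refine Finset.sum_congr rfl fun j _ => ?_
      rw [map_sum]
      exact Finset.sum_congr rfl fun i _ => map_smul _ _ _
    have h2 := all_zero hinj hind _
      (fun j => Submodule.sum_mem _ fun i _ => (S.cx M).smul_mem _ (hwM i)) h1 j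
    exact Fintype.linearIndependent_iff.1 hw _ h2 i
  · apply le_antisymm
    · rw [Submodule.span_le]
      rintro _ ⟨k, rfl⟩
      exact map_mem hmem heq (hwe k.1) k.2
    · intro y hy
      obtain ⟨x, hx, rfl⟩ := eig_comp hinj hmem heq hind hsup hy
      refine Submodule.sum_mem _ fun j _ => ?_
      have h1 : (Submodule.span ℂ (Set.range w)).map (u j) ≤
          Submodule.span ℂ (Set.range fun k : Fin n × Fin s => u k.2 (w k.1)) := by
        rw [Submodule.map_span_le]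
        rintro _ ⟨i, rfl⟩
        exact Submodule.subset_span ⟨(i, j), rfl⟩
      refine h1 ⟨x j, ?_, rfl⟩
      rw [hwL]
      exact hx j

private theorem detPeriod_mult (hM : IsSub S M) (hM' : IsSub S M') (hu : ∀ j, IsHom S S (u j))
    (hinj : ∀ j, ∀ x ∈ S.cx M, u j x = 0 → x = 0)
    (hmem : ∀ j, ∀ x ∈ S.cx M, u j x ∈ S.cx M')
    (heq : ∀ j a (x : S.cx M) (y : S.cx M'), u j x = y → u j (ι a x) = ι' a y)
    (hind : iSupIndep fun j => (S.cx M).map (u j)) (hsup : ⨆ j, (S.cx M).map (u j) = S.cx M')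
    {τ : K →+* ℂ} {z : ℂ} (hz : IsDetPeriod ι τ z) : IsDetPeriod ι' τ (z ^ s) := by
  classical
  obtain ⟨n, v, ω, P, hv, hvL, hω, hωL, hvM, hωD, hωP, rfl⟩ := hz
  obtain ⟨h1, h2⟩ := basis_mult hinj hmem heq hind hsup hv hvL
  obtain ⟨h3, h4⟩ := basis_mult hinj hmem heq hind hsup hω hωL
  let E : Fin (n * s) ≃ Fin n × Fin s := finProdFinEquiv.symm
  have hr : ∀ f : Fin n × Fin s → S.W, Set.range (fun k => f (E k)) = Set.range f := by
    intro f
    exact E.surjective.range_comp f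
  refine ⟨n * s, fun k => u (E k).2 (v (E k).1), fun k => u (E k).2 (ω (E k).1),
    (Matrix.blockDiagonal fun _ : Fin s => P).submatrix E E, ?_, ?_, ?_, ?_, ?_, ?_, ?_, ?_⟩
  · exact (linearIndependent_equiv E).2 h1
  · rw [← h2]
    exact congrArg _ (hr fun k => u k.2 (v k.1))
  · exact (linearIndependent_equiv E).2 h3
  · rw [← h4]
    exact congrArg _ (hr fun k => u k.2 (ω k.1))
  · intro k
    have h5 : Submodule.span Qbar (M : Set S.W) ≤
        (Submodule.span Qbar (M' : Set S.W)).comap ((u (E k).2).restrictScalars Qbar) := by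
      rw [Submodule.span_le]
      intro x hx
      apply Submodule.subset_span
      exact mem_of_cx hM'.le (hmem _ _ (Submodule.subset_span hx)) ((hu _).betti _ (hM.le hx))
    exact h5 (hvM (E k).1)
  · exact fun k => (hu _).deRham _ (hωD _)
  · intro k
    rw [← E.symm.sum_comp, Fintype.sum_prod_type_right]
    rw [Finset.sum_eq_single (E k).2]
    · change u (E k).2 (ω (E k).1) = _
      rw [hωP, map_sum]
      refine Finset.sum_congr rfl fun i _ => ?_
      beta_reduce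
      rw [map_smul, Matrix.submatrix_apply, Equiv.apply_symm_apply, Matrix.blockDiagonal_apply,
        if_pos rfl]
    · intro j _ hj
      refine Finset.sum_eq_zero fun i _ => ?_
      rw [Matrix.submatrix_apply, Equiv.apply_symm_apply, Matrix.blockDiagonal_apply,
        if_neg (Ne.symm hj), zero_smul]
    · intro h
      exact absurd (Finset.mem_univ _) h
  · rw [Matrix.det_submatrix_equiv_self, Matrix.det_blockDiagonal, Finset.prod_const,
      Finset.card_univ, Fintype.card_fin]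

/-- The relation for the determinant of a substructure follows from the relation for a multiple of
it. -/
theorem detRelation_of_mult {M M' : Submodule ℚ S.W} (hM : IsSub S M) (hM' : IsSub S M')
    {K : Type} [Field K] [NumberField K] (ι : K →+* Module.End ℂ (S.cx M))
    (_hι : ∀ a, IsEnd S M (ι a)) (ι' : K →+* Module.End ℂ (S.cx M'))
    (_hι' : ∀ a, IsEnd S M' (ι' a)) {s : ℕ} (hs : 0 < s) (u : Fin s → S.W →ₗ[ℂ] S.W)
    (hu : ∀ j, IsHom S S (u j)) (hinj : ∀ j, ∀ x ∈ S.cx M, u j x = 0 → x = 0)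
    (hmem : ∀ j, ∀ x ∈ S.cx M, u j x ∈ S.cx M')
    (heq : ∀ j a (x : S.cx M) (y : S.cx M'), u j x = y → u j (ι a x) = ι' a y)
    (hind : iSupIndep fun j => (S.cx M).map (u j)) (hsup : ⨆ j, (S.cx M).map (u j) = S.cx M')
    {e : K →+* ℂ} (h : DetRelation ι' e) : DetRelation ι e := by
  intro d _ hd ε hε l τ hτ z hz
  have hs' : (s : ℚ) ≠ 0 := by exact_mod_cast hs.ne'
  have h1 := h d hd (fun a => s * ε a) (fun l' τ' hτ' => by
    rw [detType_mult hM hu hinj hmem heq hind hsup τ']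
    push_cast
    rw [mul_left_comm, hε l' τ' hτ', Finset.mul_sum]
    exact Finset.sum_congr rfl fun a _ => by ring) l τ hτ (z ^ s)
    (detPeriod_mult hM hM' hu hinj hmem heq hind hsup hz)
  have hz0 : z ≠ 0 := fun h0 => h1.1 (by rw [h0, zero_pow hs.ne'])
  refine sim_of_cls gammaSpec hz0 (gammaProd_ne d ε l) ?_
  have h2 := cls_of_sim gammaSpec h1
  rw [cls_pow gammaSpec z hz0, cls_gammaProd gammaSpec] at h2
  rw [cls_gammaProd gammaSpec]
  have h3 : ∀ f : ℚ → Pool.Agent.H11.GD.V,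
      tsum' d f (fun a => (s : ℚ) * ε a) l = (s : ℚ) • tsum' d f ε l := by
    intro f
    unfold tsum'
    rw [Finset.smul_sum]
    exact Finset.sum_congr rfl fun a _ => by rw [mul_smul]
  rw [h3] at h2
  exact smul_right_injective _ hs' h2

end mult

end GD
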