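import Pool.Agent.H44.FM.GammaBase

/-!
# Superseded

The theorem on families with a fibre of gamma type is contained in `Pool.Agent.H27.GD.Reach`.
-/
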