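import Mathlib

/-!
# The places of the projective line, through Laurent series

For the local part of the theorem on the trace of a regular singular connection: the field
`k⸨X⸩` with its valuation ring, its residue map, the derivation `θ = X d/dX`, and for every point
`a` of the projective line the homomorphism from polynomials to Laurent series.
-/

set_option autoImplicit false

noncomputable section

namespace GD.FM

open Polynomial
open HahnSeries (single ofPowerSeries ofPowerSeries_injective single_mul_single coeff_mul_left'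
  coeff_mul_right' coeff_single_of_ne coeff_single_mul coeff_single_zero_mul)
open scoped LaurentSeries

variable {k : Type} [Field k]

/-- The valuation ring. -/
def O (k : Type) [Field k] : ValuationSubring k⸨X⸩ :=
  (ValuationRing.valuation (PowerSeries k) k⸨X⸩).valuationSubring

theorem mem_O (x : k⸨X⸩) : x ∈ O k ↔ ∃ f : PowerSeries k, (f : k⸨X⸩) = x :=
  ValuationRing.mem_integer_iff _ _ _

theorem coe_mem (f : PowerSeries k) : (f : k⸨X⸩) ∈ O k := (mem_O _).2 ⟨f, rfl⟩

/-- The residue map. -/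
def res (k : Type) [Field k] : O k →+* k where
  toFun x := (x : k⸨X⸩).coeff 0
  map_one' := by simp
  map_zero' := by simp
  map_add' x y := by simp
  map_mul' x y := by
    obtain ⟨f, hf⟩ := (mem_O _).1 x.2
    obtain ⟨g, hg⟩ := (mem_O _).1 y.2
    have h : ((x * y : O k) : k⸨X⸩) = ((f * g : PowerSeries k) : k⸨X⸩) := by
      rw [PowerSeries.coe_mul, hf, hg]
      rfl
    rw [h, ← hf, ← hg]
    have e : ∀ u : PowerSeries k, (u : k⸨X⸩).coeff 0 = PowerSeries.constantCoeff u := by
      intro u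
      have := LaurentSeries.coeff_coe_powerSeries u 0
      simpa using this
    rw [e, e, e, map_mul]

theorem res_apply (x : O k) : res k x = (x : k⸨X⸩).coeff 0 := rfl

theorem coeff_neg_of_mem {x : k⸨X⸩} (hx : x ∈ O k) {n : ℤ} (hn : n < 0) : x.coeff n = 0 := by
  obtain ⟨f, rfl⟩ := (mem_O _).1 hx
  rw [PowerSeries.coeff_coe, if_pos hn]

/-- The derivation `X d/dX`. -/
def θ (x : k⸨X⸩) : k⸨X⸩ where
  coeff n := (n : k) * x.coeff n
  isPWO_support' := x.isPWO_support.mono fun n hn h0 => hn (by simp [h0])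

theorem θ_coeff (x : k⸨X⸩) (n : ℤ) : (θ x).coeff n = (n : k) * x.coeff n := rfl

theorem θ_support (x : k⸨X⸩) : (θ x).support ⊆ x.support := fun n hn h0 => hn (by
  simp [θ_coeff, h0])

theorem θ_add (x y : k⸨X⸩) : θ (x + y) = θ x + θ y := by
  ext n
  simp only [θ_coeff, HahnSeries.coeff_add, mul_add]

theorem θ_mul (x y : k⸨X⸩) : θ (x * y) = θ x * y + x * θ y := by
  ext n
  rw [θ_coeff, HahnSeries.coeff_add, coeff_mul_left' x.isPWO_support (θ_support x),
    coeff_mul_right' y.isPWO_support (θ_support y), HahnSeries.coeff_mul, Finset.mul_sum,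
    ← Finset.sum_add_distrib]
  refine Finset.sum_congr rfl fun ij hij => ?_
  have h : ij.1 + ij.2 = n := (Finset.mem_antidiagonal.1 hij).2.2
  rw [θ_coeff, θ_coeff, ← h]
  push_cast
  ring

theorem θ_C (r : k) : θ (HahnSeries.C r : k⸨X⸩) = 0 := by
  ext n
  rw [θ_coeff, HahnSeries.coeff_zero]
  rcases eq_or_ne n 0 with rfl | hn
  · simp
  · rw [HahnSeries.C_apply, coeff_single_of_ne hn, mul_zero]

theorem θ_single (m : ℤ) : θ (single m (1 : k)) = HahnSeries.C (m : k) * single m 1 := by
  ext n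
  rw [θ_coeff, HahnSeries.C_apply, coeff_single_zero_mul]
  rcases eq_or_ne n m with rfl | hn
  · rfl
  · rw [coeff_single_of_ne hn, mul_zero, mul_zero]

theorem θ_mem (x : O k) : ∃ h : θ (x : k⸨X⸩) ∈ O k, res k ⟨θ (x : k⸨X⸩), h⟩ = 0 := by
  obtain ⟨f, hf⟩ := (mem_O _).1 x.2
  have h : θ (x : k⸨X⸩) = ((PowerSeries.mk fun n => (n : k) * PowerSeries.coeff n f :
      PowerSeries k) : k⸨X⸩) := by
    ext n
    rw [θ_coeff, ← hf, PowerSeries.coeff_coe, PowerSeries.coeff_coe]
    split_ifs with hn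
    · simp
    · rw [PowerSeries.coeff_mk]
      have h1 : ((n.natAbs : ℕ) : ℤ) = n := Int.natAbs_of_nonneg (not_lt.1 hn)
      have h2 : (n : k) = ((n.natAbs : ℕ) : k) := by
        rw [← Int.cast_natCast (R := k) n.natAbs, h1]
      rw [h2]
  refine ⟨h ▸ coe_mem _, ?_⟩
  rw [res_apply]
  change (θ (x : k⸨X⸩)).coeff 0 = 0
  rw [θ_coeff]
  simp

theorem θ_log (x : k⸨X⸩) (hx : x ≠ 0) :
    ∃ h : θ x / x ∈ O k, ∃ m : ℤ, res k ⟨θ x / x, h⟩ = m := by
  obtain ⟨m, hm⟩ : ∃ m, m = x.order := ⟨_, rfl⟩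
  obtain ⟨u, hu⟩ : ∃ u, u = x.powerSeriesPart := ⟨_, rfl⟩
  have h1 : x = single m 1 * (u : k⸨X⸩) := by
    rw [hm, hu]
    exact (LaurentSeries.single_order_mul_powerSeriesPart x).symm
  have hu0 : PowerSeries.constantCoeff u ≠ 0 := by
    rw [hu, ← PowerSeries.coeff_zero_eq_constantCoeff_apply, LaurentSeries.powerSeriesPart_coeff]
    simpa using HahnSeries.coeff_order_eq_zero.not.2 hx
  have hu1 : (u : k⸨X⸩) * ((u⁻¹ : PowerSeries k) : k⸨X⸩) = 1 := by
    rw [← PowerSeries.coe_mul, PowerSeries.mul_inv_cancel _ hu0, PowerSeries.coe_one]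
  have hune : (u : k⸨X⸩) ≠ 0 := left_ne_zero_of_mul_eq_one hu1
  have hs : (single m (1 : k) : k⸨X⸩) ≠ 0 := by simp
  have h2 : θ x / x = HahnSeries.C (m : k) + θ (u : k⸨X⸩) * ((u⁻¹ : PowerSeries k) : k⸨X⸩) := by
    rw [eq_comm, eq_div_iff hx]
    have h3 : ((u⁻¹ : PowerSeries k) : k⸨X⸩) = (u : k⸨X⸩)⁻¹ := eq_inv_of_mul_eq_one_right hu1
    rw [h3, h1, θ_mul, θ_single]
    field_simp
  obtain ⟨h4, h5⟩ := θ_mem ⟨(u : k⸨X⸩), coe_mem u⟩
  have h6 : (HahnSeries.C (m : k) : k⸨X⸩) ∈ O k := by
    rw [← PowerSeries.coe_C]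
    exact coe_mem _
  have h7 : θ x / x ∈ O k := by
    rw [h2]
    exact (O k).add_mem _ _ h6 ((O k).mul_mem _ _ h4 (coe_mem _))
  refine ⟨h7, m, ?_⟩
  have h8 : (⟨θ x / x, h7⟩ : O k) = ⟨_, h6⟩ + ⟨_, h4⟩ * ⟨_, coe_mem (u⁻¹)⟩ := Subtype.ext h2
  rw [h8, map_add, map_mul, h5, zero_mul, add_zero, res_apply]
  change ((HahnSeries.C (m : k) : k⸨X⸩)).coeff 0 = m
  rw [HahnSeries.C_apply, HahnSeries.coeff_single_same]

/-! ### The points of the projective line -/

/-- The logarithmic derivation on polynomials is determined by its value at `X`. -/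
theorem θ_map (φ : k[X] →+* k⸨X⸩) (π : k[X]) (hC : ∀ r, θ (φ (C r)) = 0) (hX : θ (φ X) = φ π)
    (f : k[X]) : θ (φ f) = φ (π * derivative f) := by
  have hpow : ∀ n : ℕ, θ (φ (X ^ n)) = φ (π * derivative (X ^ n)) := by
    intro n
    induction n with
    | zero =>
      have := hC 1
      simpa using this
    | succ n ih =>
      rw [pow_succ, map_mul, θ_mul, ih, hX, derivative_mul, derivative_X, mul_one, mul_add,
        map_add, ← map_mul, ← map_mul]
      congr 2 <;> ring
  induction f using Polynomial.induction_on' with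
  | add p q hp hq => rw [map_add, θ_add, hp, hq, map_add, mul_add, map_add]
  | monomial n r =>
    rw [← C_mul_X_pow_eq_monomial, map_mul, θ_mul, hC, zero_mul, zero_add, hpow, derivative_mul,
      derivative_C, zero_mul, zero_add, ← map_mul]
    congr 1
    ring

/-- The expansion at `a`. -/
def φa (a : k) : k[X] →+* k⸨X⸩ :=
  (ofPowerSeries ℤ k).comp (Polynomial.coeToPowerSeries.ringHom.comp (compRingHom (X + C a)))

theorem φa_apply (a : k) (f : k[X]) :
    φa a f = ((f.comp (X + C a) : k[X]) : PowerSeries k) := rfl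

theorem φa_inj (a : k) : Function.Injective (φa a) := by
  rw [injective_iff_map_eq_zero]
  intro f hf
  rw [φa_apply] at hf
  have h1 : ((f.comp (X + C a) : k[X]) : PowerSeries k) = 0 :=
    ofPowerSeries_injective (hf.trans (map_zero _).symm)
  have h2 : f.comp (X + C a) = 0 := by exact_mod_cast h1
  have h3 : (f.comp (X + C a)).comp (X - C a) = f := by
    rw [comp_assoc]
    simp
  rw [← h3, h2, zero_comp]

theorem φa_C (a r : k) : φa a (C r) = HahnSeries.C r := by
  rw [φa_apply, C_comp, Polynomial.coe_C, PowerSeries.coe_C]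

theorem φa_X (a : k) : φa a X = single 1 1 + HahnSeries.C a := by
  rw [φa_apply, X_comp, Polynomial.coe_add, Polynomial.coe_X, Polynomial.coe_C,
    PowerSeries.coe_add, PowerSeries.coe_X, PowerSeries.coe_C]

theorem φa_sub (a : k) : φa a (X - C a) = single 1 1 := by
  rw [map_sub, φa_X, φa_C, add_sub_cancel_right]

theorem θ_φa (a : k) (f : k[X]) : θ (φa a f) = φa a ((X - C a) * derivative f) := by
  refine θ_map (φa a) (X - C a) (fun r => ?_) ?_ f
  · rw [φa_C, θ_C]
  · rw [φa_sub, φa_X, θ_add, θ_C, add_zero, θ_single]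
    simp

theorem φa_mem (a : k) (f : k[X]) :
    ∃ h : φa a f ∈ O k, res k ⟨φa a f, h⟩ = f.eval a := by
  refine ⟨coe_mem _, ?_⟩
  rw [res_apply]
  change (φa a f).coeff 0 = _
  have := LaurentSeries.coeff_coe_powerSeries ((f.comp (X + C a) : k[X]) : PowerSeries k) 0
  rw [φa_apply]
  rw [Nat.cast_zero] at this
  rw [this, Polynomial.coeff_coe, coeff_zero_eq_eval_zero, eval_comp]
  simp

/-- The expansion at infinity. -/
def φi : k[X] →+* k⸨X⸩ := eval₂RingHom HahnSeries.C (single (-1) 1)

theorem φi_C (r : k) : φi (C r) = HahnSeries.C r := by simp [φi]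

theorem φi_X : φi (X : k[X]) = single (-1) 1 := by simp [φi]

theorem φi_X_pow (n : ℕ) : φi ((X : k[X]) ^ n) = single (-(n : ℤ)) 1 := by
  rw [map_pow, φi_X]
  induction n with
  | zero => simp
  | succ n ih =>
    have h : -((n + 1 : ℕ) : ℤ) = -(n : ℤ) + -1 := by push_cast; ring
    rw [pow_succ, ih, single_mul_single, mul_one, h]

theorem θ_φi (f : k[X]) : θ (φi f) = φi (-X * derivative f) := by
  refine θ_map φi (-X) (fun r => ?_) ?_ f
  · rw [φi_C, θ_C]
  · rw [map_neg, φi_X, θ_single]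
    simp

theorem φi_coeff (f : k[X]) (n : ℤ) :
    (φi f).coeff (-n) = if 0 ≤ n then f.coeff n.toNat else 0 := by
  induction f using Polynomial.induction_on' with
  | add p q hp hq =>
    rw [map_add, HahnSeries.coeff_add, hp, hq]
    split_ifs <;> simp
  | monomial m r =>
    rw [← C_mul_X_pow_eq_monomial, map_mul, φi_C, φi_X_pow, HahnSeries.C_apply,
      coeff_single_zero_mul, Polynomial.coeff_C_mul, Polynomial.coeff_X_pow]
    rcases lt_or_ge n 0 with hn | hn
    · rw [if_neg (not_le.2 hn), coeff_single_of_ne (by omega), mul_zero]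
    · rw [if_pos hn]
      rcases eq_or_ne n m with h | h
      · subst h
        simp
      · rw [coeff_single_of_ne (by omega), if_neg (by omega)]

theorem φi_inj : Function.Injective (φi : k[X] →+* k⸨X⸩) := by
  rw [injective_iff_map_eq_zero]
  intro f hf
  ext n
  have := φi_coeff f n
  rw [hf, if_pos (by omega)] at this
  simpa using this.symm

/-- A polynomial of degree at most `d`, divided by `X ^ d`, at infinity. -/
theorem φi_mem {f : k[X]} {d : ℕ} (hf : f.natDegree ≤ d) :
    ∃ h : single (d : ℤ) (1 : k) * φi f ∈ O k,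
      res k ⟨single (d : ℤ) (1 : k) * φi f, h⟩ = f.coeff d := by
  have h1 : single (d : ℤ) (1 : k) * φi f =
      ((PowerSeries.mk fun n => if n ≤ d then f.coeff (d - n) else 0 : PowerSeries k) : k⸨X⸩) := by
    ext n
    rw [coeff_single_mul, one_mul, PowerSeries.coeff_coe]
    have h2 := φi_coeff f ((d : ℤ) - n)
    rw [neg_sub] at h2
    rw [h2]
    split_ifs with h3 h4 h4
    · exact Polynomial.coeff_eq_zero_of_natDegree_lt (by omega)
    · rw [PowerSeries.coeff_mk, if_pos (by omega)]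
      congr 1
      omega
    · rfl
    · rw [PowerSeries.coeff_mk, if_neg (by omega)]
  refine ⟨h1 ▸ coe_mem _, ?_⟩
  rw [res_apply]
  change (single (d : ℤ) (1 : k) * φi f).coeff 0 = _
  rw [coeff_single_mul, one_mul, zero_sub, φi_coeff, if_pos (by omega), Int.toNat_natCast]

/-- Conversely the degree is bounded. -/
theorem natDegree_le_of_mem {f : k[X]} {d : ℕ} (h : single (d : ℤ) (1 : k) * φi f ∈ O k) :
    f.natDegree ≤ d := by
  rw [Polynomial.natDegree_le_iff_coeff_eq_zero]
  intro n hn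
  have h1 := coeff_neg_of_mem h (n := (d : ℤ) - n) (by omega)
  rw [coeff_single_mul, one_mul] at h1
  have h2 : (d : ℤ) - n - d = -(n : ℤ) := by ring
  rw [h2, φi_coeff, if_pos (by omega), Int.toNat_natCast] at h1
  exact h1

end GD.FM
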