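import Pool.Agent.H26.FM.Reg
import Pool.Agent.H27.GD.Local
import Pool.Agent.H44.FM.Laurent

/-!
# The trace of a regular connection at every place of the projective line
-/

set_option autoImplicit false

noncomputable section

namespace GD.FM

open Polynomial
open HahnSeries (single)
open scoped LaurentSeries

variable {k : Type} [Field k]

/-- An additive map with the product rule as a derivation. -/
def mkDer {F : Type} [Field F] (D : F → F) (hadd : ∀ x y, D (x + y) = D x + D y)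
    (hmul : ∀ x y, D (x * y) = D x * y + x * D y) : Derivation ℤ F F :=
  Derivation.mk' (AddMonoidHom.toIntLinearMap
    { toFun := D
      map_zero' := by
        have h := hadd 0 0
        rw [add_zero] at h
        exact left_eq_add.1 h
      map_add' := hadd }) fun a b => by
    change D (a * b) = a • D b + b • D a
    rw [hmul, smul_eq_mul, smul_eq_mul]
    ring

theorem mkDer_apply {F : Type} [Field F] (D : F → F) (hadd : ∀ x y, D (x + y) = D x + D y)
    (hmul : ∀ x y, D (x * y) = D x * y + x * D y) (x : F) : mkDer D hadd hmul x = D x := rfl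

/-- `X d/dX` as a derivation. -/
def dθ (k : Type) [Field k] := mkDer (F := k⸨X⸩) θ θ_add θ_mul

theorem dθ_apply (x : k⸨X⸩) : dθ k x = θ x := mkDer_apply θ θ_add θ_mul x

theorem gaugeNum_mul {n : ℕ} (P : Matrix (Fin n) (Fin n) k[X]) (q : k[X])
    (G : Matrix (Fin n) (Fin n) k[X]) :
    gaugeNum P q G * G = G.det • (q • G.map derivative + G * P) := by
  rw [gaugeNum, Matrix.mul_assoc, Matrix.adjugate_mul, Matrix.mul_smul, Matrix.mul_one]

theorem trace_at [IsAlgClosed k] [CharZero k] (φ : k[X] →+* k⸨X⸩) (hφ : Function.Injective φ)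
    (π : k[X]) (hθ : ∀ f, θ (φ f) = φ (π * derivative f)) {n m : ℕ}
    (P : Matrix (Fin n) (Fin n) k[X]) (q : k[X]) (hq : q ≠ 0)
    (G : Matrix (Fin n) (Fin n) k[X]) (hG : G.det ≠ 0) (R : Matrix (Fin n) (Fin n) k)
    (hR : ∀ i j, ∃ h : φ (π * gaugeNum P q G i j) / φ (q * G.det) ∈ O k, res k ⟨_, h⟩ = R i j)
    (hrat : RatEigen R) (c : Matrix (Fin m) (Fin n) k[X])
    (hc : ∃ J : Fin m → Fin n, (c.submatrix id J).det ≠ 0)
    (H : Matrix (Fin m) (Fin m) k[X]) (r : k[X]) (hr : r ≠ 0)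
    (hH : r • (q • c.map derivative + c * P) = q • (H * c)) :
    ∃ (h : φ (π * H.trace) / φ r ∈ O k) (l : ℚ), res k ⟨_, h⟩ = l := by
  have hφ0 : ∀ f : k[X], f ≠ 0 → φ f ≠ 0 := fun f hf => by
    rwa [Ne, map_eq_zero_iff φ hφ]
  have hq' := hφ0 q hq
  have hr' := hφ0 r hr
  have hd' := hφ0 G.det hG
  have hmap : ∀ {a b : ℕ} (M : Matrix (Fin a) (Fin b) k[X]),
      (M.map φ).map (dθ k) = φ π • (M.map derivative).map φ := by
    intro a b M
    refine Matrix.ext fun i j => ?_
    simp only [Matrix.map_apply, Matrix.smul_apply, dθ_apply, hθ, map_mul, smul_eq_mul]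
  choose hm hres using hR
  obtain ⟨h, l, hl⟩ := H27.GD.local_trace (O k) (res k) (dθ k) (fun x hx => (θ_mem ⟨x, hx⟩).1)
    (fun x hx => (θ_mem ⟨x, hx⟩).2) (fun f hf => θ_log f hf)
    ((φ π / φ q) • P.map φ) (G.map φ)
    (by
      have h1 : (G.map φ).det = φ G.det := (RingHom.map_det φ G).symm
      rwa [h1])
    (Matrix.of fun i j => ⟨_, hm i j⟩)
    (by
      have h1 : (Matrix.of fun i j => (⟨_, hm i j⟩ : O k)).map (O k).subtype =
          (φ π / φ (q * G.det)) • (gaugeNum P q G).map φ := by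
        refine Matrix.ext fun i j => ?_
        simp only [Matrix.map_apply, Matrix.of_apply, Matrix.smul_apply, smul_eq_mul]
        change φ (π * gaugeNum P q G i j) / φ (q * G.det) = _
        rw [map_mul, mul_div_right_comm]
      rw [h1, Matrix.smul_mul, ← Matrix.map_mul, gaugeNum_mul, hmap]
      have h2 : (G.det • (q • G.map derivative + G * P)).map φ =
          φ G.det • (φ q • (G.map derivative).map φ + G.map φ * P.map φ) := by
        rw [← Matrix.map_mul]
        refine Matrix.ext fun i j => ?_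
        simp only [Matrix.map_apply, Matrix.smul_apply, Matrix.add_apply, smul_eq_mul, map_mul,
          map_add]
      rw [h2, smul_smul, smul_add, smul_smul, map_mul, Matrix.mul_smul, add_comm]
      congr 2
      · field_simp
      · field_simp)
    (by
      have h1 : (Matrix.of fun i j => (⟨_, hm i j⟩ : O k)).map (res k) = R := by
        ext i j
        rw [Matrix.map_apply, Matrix.of_apply]
        exact hres i j
      rw [h1]
      exact hrat)
    (c.map φ)
    (by
      obtain ⟨J, hJ⟩ := hc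
      refine ⟨J, ?_⟩
      have h1 : ((c.map φ).submatrix id J).det = φ (c.submatrix id J).det := by
        rw [RingHom.map_det]
        rfl
      rw [h1]
      exact hφ0 _ hJ)
    ((φ π / φ r) • H.map φ)
    (by
      rw [hmap, Matrix.mul_smul, Matrix.smul_mul]
      have h1 : φ r • (φ q • (c.map derivative).map φ + c.map φ * P.map φ) =
          φ q • (H.map φ * c.map φ) := by
        have h2 := congrArg (fun M : Matrix (Fin m) (Fin n) k[X] => M.map φ) hH
        rw [← Matrix.map_mul, ← Matrix.map_mul]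
        refine Matrix.ext fun i j => ?_
        have h3 := congrFun (congrFun h2 i) j
        simp only [Matrix.map_apply, Matrix.smul_apply, Matrix.add_apply, smul_eq_mul, map_mul,
          map_add] at h3 ⊢
        exact h3
      have h4 : H.map φ * c.map φ =
          (φ r / φ q) • (φ q • (c.map derivative).map φ + c.map φ * P.map φ) := by
        rw [div_eq_inv_mul, mul_smul, h1, smul_smul, inv_mul_cancel₀ hq', one_smul]
      rw [h4, smul_smul, smul_add, smul_smul]
      congr 2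
      · field_simp
      · field_simp)
  have h5 : ((φ π / φ r) • H.map φ).trace = φ (π * H.trace) / φ r := by
    rw [Matrix.trace_smul, smul_eq_mul, map_mul, mul_div_right_comm]
    congr 1
    rw [Matrix.trace, Matrix.trace, map_sum]
    rfl
  refine ⟨h5 ▸ h, l, ?_⟩
  rw [← hl]
  congr 1
  exact Subtype.ext h5.symm

/-! ### Values at the points of the projective line -/

theorem mem_div {x y : k⸨X⸩} (hx : x ∈ O k) (hy : y ∈ O k) (h0 : res k ⟨y, hy⟩ ≠ 0) :
    ∃ h : x / y ∈ O k, res k ⟨x / y, h⟩ = res k ⟨x, hx⟩ / res k ⟨y, hy⟩ := by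
  have hy0 : y ≠ 0 := by
    rintro rfl
    exact h0 (map_zero (res k))
  obtain ⟨f, hf⟩ := (mem_O _).1 hy
  have hf0 : PowerSeries.constantCoeff f ≠ 0 := by
    have h1 : res k ⟨y, hy⟩ = PowerSeries.constantCoeff f := by
      rw [res_apply]
      change y.coeff 0 = _
      rw [← hf]
      simpa using LaurentSeries.coeff_coe_powerSeries f 0
    rwa [← h1]
  have hinv : y⁻¹ ∈ O k := by
    have h2 : (f : k⸨X⸩) * ((f⁻¹ : PowerSeries k) : k⸨X⸩) = 1 := by
      rw [← PowerSeries.coe_mul, PowerSeries.mul_inv_cancel _ hf0, PowerSeries.coe_one]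
    rw [← hf, ← eq_inv_of_mul_eq_one_right h2]
    exact coe_mem _
  have h3 : x / y ∈ O k := by
    rw [div_eq_mul_inv]
    exact (O k).mul_mem _ _ hx hinv
  refine ⟨h3, ?_⟩
  rw [eq_div_iff h0, ← map_mul]
  congr 1
  exact Subtype.ext (div_mul_cancel₀ x hy0)

/-- From `Takes` to the valuation ring. -/
theorem of_takes {a : k} {p q : k[X]} {r : k} (h : Takes a p q r) (hq : q ≠ 0) :
    ∃ h : φa a p / φa a q ∈ O k, res k ⟨_, h⟩ = r := by
  obtain ⟨u, v, hv, h1, h2⟩ := h
  obtain ⟨hu', hu''⟩ := φa_mem a u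
  obtain ⟨hv', hv''⟩ := φa_mem a v
  obtain ⟨h3, h4⟩ := mem_div hu' hv' (by rwa [hv''])
  have hv0 : φa a v ≠ 0 := by
    rw [Ne, map_eq_zero_iff _ (φa_inj a)]
    rintro rfl
    exact hv eval_zero
  have hq0 : φa a q ≠ 0 := by rwa [Ne, map_eq_zero_iff _ (φa_inj a)]
  have h5 : φa a p / φa a q = φa a u / φa a v := by
    rw [div_eq_div_iff hq0 hv0, ← map_mul, h1, map_mul, mul_comm]
  refine ⟨h5 ▸ h3, ?_⟩
  have h6 : (⟨φa a p / φa a q, h5 ▸ h3⟩ : O k) = ⟨_, h3⟩ := Subtype.ext h5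
  rw [h6, h4, hu'', hv'', ← h2, mul_div_cancel_right₀ _ hv]

/-- A fraction in lowest terms. -/
theorem exists_coprime (p q : k[X]) (hq : q ≠ 0) :
    ∃ g u v : k[X], g ≠ 0 ∧ v ≠ 0 ∧ p = g * u ∧ q = g * v ∧ IsCoprime u v := by
  classical
  have hg : EuclideanDomain.gcd p q ≠ 0 := fun h => hq (EuclideanDomain.gcd_eq_zero_iff.1 h).2
  obtain ⟨u, hu⟩ := EuclideanDomain.gcd_dvd_left p q
  obtain ⟨v, hv⟩ := EuclideanDomain.gcd_dvd_right p q
  refine ⟨EuclideanDomain.gcd p q, u, v, hg, ?_, hu, hv, ?_⟩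
  · rintro rfl
    exact hq (by rw [hv, mul_zero])
  · have hxy := EuclideanDomain.gcd_eq_gcd_ab p q
    refine ⟨EuclideanDomain.gcdA p q, EuclideanDomain.gcdB p q, ?_⟩
    apply mul_left_cancel₀ hg
    calc EuclideanDomain.gcd p q * (EuclideanDomain.gcdA p q * u + EuclideanDomain.gcdB p q * v)
        = (EuclideanDomain.gcd p q * u) * EuclideanDomain.gcdA p q +
          (EuclideanDomain.gcd p q * v) * EuclideanDomain.gcdB p q := by ring
      _ = EuclideanDomain.gcd p q * 1 := by rw [← hu, ← hv, ← hxy, mul_one]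

/-- From the valuation ring to `Takes`. -/
theorem takes_of {a : k} {p q : k[X]} (hq : q ≠ 0) (h : φa a p / φa a q ∈ O k) :
    Takes a p q (res k ⟨_, h⟩) := by
  obtain ⟨g, u, v, hg, hv, rfl, rfl, hco⟩ := exists_coprime p q hq
  have hg0 : φa a g ≠ 0 := by rwa [Ne, map_eq_zero_iff _ (φa_inj a)]
  have hv0 : φa a v ≠ 0 := by rwa [Ne, map_eq_zero_iff _ (φa_inj a)]
  have h1 : φa a (g * u) / φa a (g * v) * φa a v = φa a u := by
    rw [map_mul, map_mul]
    field_simp
  obtain ⟨hu', hu''⟩ := φa_mem a u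
  obtain ⟨hv', hv''⟩ := φa_mem a v
  have h2 : res k ⟨_, h⟩ * v.eval a = u.eval a := by
    rw [← hv'', ← hu'', ← map_mul]
    congr 1
    exact Subtype.ext h1
  refine ⟨u, v, fun h0 => ?_, by ring, h2⟩
  obtain ⟨x, y, hxy⟩ := hco
  have h3 := congrArg (Polynomial.eval a) hxy
  rw [h0, mul_zero] at h2
  simp [h0, ← h2] at h3

/-- From `TakesInf` to the valuation ring. -/
theorem of_takesInf {p q : k[X]} {r : k} (h : TakesInf p q r) (hq : q ≠ 0) :
    ∃ h : φi p / φi q ∈ O k, res k ⟨_, h⟩ = r := by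
  obtain ⟨u, v, d, hv, hud, hvd, h1, h2⟩ := h
  obtain ⟨hu', hu''⟩ := φi_mem hud
  obtain ⟨hv', hv''⟩ := φi_mem hvd
  obtain ⟨h3, h4⟩ := mem_div hu' hv' (by rwa [hv''])
  have hv0 : φi v ≠ 0 := by
    rw [Ne, map_eq_zero_iff _ φi_inj]
    rintro rfl
    exact hv (Polynomial.coeff_zero _)
  have hq0 : φi q ≠ 0 := by rwa [Ne, map_eq_zero_iff _ φi_inj]
  have hs : (single (d : ℤ) (1 : k) : k⸨X⸩) ≠ 0 := by simp
  have h5 : φi p / φi q = (single (d : ℤ) (1 : k) * φi u) / (single (d : ℤ) (1 : k) * φi v) := by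
    rw [mul_div_mul_left _ _ hs, div_eq_div_iff hq0 hv0, ← map_mul, h1, map_mul, mul_comm]
  refine ⟨h5 ▸ h3, ?_⟩
  have h6 : (⟨φi p / φi q, h5 ▸ h3⟩ : O k) = ⟨_, h3⟩ := Subtype.ext h5
  rw [h6, h4, hu'', hv'', ← h2, mul_div_cancel_right₀ _ hv]

/-- From the valuation ring to `TakesInf`. -/
theorem takesInf_of {p q : k[X]} (hq : q ≠ 0) (h : φi p / φi q ∈ O k) :
    TakesInf p q (res k ⟨_, h⟩) := by
  obtain ⟨g, u, v, hg, hv, rfl, rfl, hco⟩ := exists_coprime p q hq
  have hg0 : φi g ≠ 0 := by rwa [Ne, map_eq_zero_iff _ φi_inj]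
  have hv0 : φi v ≠ 0 := by rwa [Ne, map_eq_zero_iff _ φi_inj]
  obtain ⟨hv', hv''⟩ := φi_mem (f := v) (d := v.natDegree) le_rfl
  have h1 : φi (g * u) / φi (g * v) * (single (v.natDegree : ℤ) (1 : k) * φi v) =
      single (v.natDegree : ℤ) (1 : k) * φi u := by
    rw [map_mul, map_mul]
    field_simp
  have h2 : single (v.natDegree : ℤ) (1 : k) * φi u ∈ O k := by
    rw [← h1]
    exact (O k).mul_mem _ _ h hv'
  have h3 := natDegree_le_of_mem h2
  obtain ⟨hu', hu''⟩ := φi_mem h3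
  refine ⟨u, v, v.natDegree, ?_, h3, le_rfl, by ring, ?_⟩
  · rw [Polynomial.coeff_natDegree]
    exact Polynomial.leadingCoeff_ne_zero.2 hv
  · rw [← hv'', ← hu'', ← map_mul]
    congr 1
    exact Subtype.ext h1

/-! ### The two local statements -/

variable [IsAlgClosed k] [CharZero k] {n m : ℕ}

theorem takes_trace (P : Matrix (Fin n) (Fin n) k[X]) (q : k[X]) (hq : q ≠ 0) (a : k)
    (hreg : RegularAt P q a) (c : Matrix (Fin m) (Fin n) k[X])
    (hc : ∃ J : Fin m → Fin n, (c.submatrix id J).det ≠ 0)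
    (H : Matrix (Fin m) (Fin m) k[X]) (r : k[X]) (hr : r ≠ 0)
    (hH : r • (q • c.map derivative + c * P) = q • (H * c)) :
    ∃ l : ℚ, Takes a ((X - C a) * H.trace) r l := by
  obtain ⟨G, R, hG, hR, hrat⟩ := hreg
  obtain ⟨h, l, hl⟩ := trace_at (φa a) (φa_inj a) (X - C a) (θ_φa a) P q hq G hG R
    (fun i j => of_takes (hR i j) (mul_ne_zero hq hG)) hrat c hc H r hr hH
  exact ⟨l, hl ▸ takes_of hr h⟩

theorem takesInf_trace (P : Matrix (Fin n) (Fin n) k[X]) (q : k[X]) (hq : q ≠ 0)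
    (hreg : RegularInf P q) (c : Matrix (Fin m) (Fin n) k[X])
    (hc : ∃ J : Fin m → Fin n, (c.submatrix id J).det ≠ 0)
    (H : Matrix (Fin m) (Fin m) k[X]) (r : k[X]) (hr : r ≠ 0)
    (hH : r • (q • c.map derivative + c * P) = q • (H * c)) :
    ∃ l : ℚ, TakesInf (X * H.trace) r l := by
  obtain ⟨G, R, hG, hR, hrat⟩ := hreg
  have hR' : ∀ i j, ∃ h : φi (-X * gaugeNum P q G i j) / φi (q * G.det) ∈ O k,
      res k ⟨_, h⟩ = (-R) i j := by
    intro i j
    obtain ⟨h1, h2⟩ := of_takesInf (hR i j) (mul_ne_zero hq hG)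
    have h3 : φi (-X * gaugeNum P q G i j) / φi (q * G.det) =
        -(φi (X * gaugeNum P q G i j) / φi (q * G.det)) := by
      rw [neg_mul, map_neg, neg_div]
    have h4 : φi (-X * gaugeNum P q G i j) / φi (q * G.det) ∈ O k := by
      rw [h3]
      exact (O k).neg_mem _ h1
    refine ⟨h4, ?_⟩
    have h5 : (⟨_, h4⟩ : O k) = -⟨_, h1⟩ := Subtype.ext h3
    rw [h5, map_neg, h2, Matrix.neg_apply]
  have hrat' : RatEigen (-R) := by
    intro x v hv h0
    obtain ⟨l, hl⟩ := hrat (-x) v hv (by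
      rw [Matrix.vecMul_neg] at h0
      rw [neg_smul, ← h0, neg_neg])
    exact ⟨-l, by rw [Rat.cast_neg, ← hl, neg_neg]⟩
  obtain ⟨h, l, hl⟩ := trace_at φi φi_inj (-X) θ_φi P q hq G hG (-R) hR' hrat' c hc H r hr hH
  have h3 : φi (X * H.trace) / φi r = -(φi (-X * H.trace) / φi r) := by
    rw [neg_mul, map_neg, neg_div, neg_neg]
  have h4 : φi (X * H.trace) / φi r ∈ O k := by
    rw [h3]
    exact (O k).neg_mem _ h
  refine ⟨-l, ?_⟩
  have h5 : res k ⟨_, h4⟩ = ((-l : ℚ) : k) := by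
    have h6 : (⟨_, h4⟩ : O k) = -⟨_, h⟩ := Subtype.ext h3
    rw [h6, map_neg, hl, Rat.cast_neg]
  exact h5 ▸ takesInf_of hr h4

end GD.FM
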